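import Mathlib
import Pool.Agent.V11306.ToepM

/-!
# The determinant of `[x + (j-k/p)]` of order `(p-5)/2`, `p ≡ 3 (mod 4)`
-/

set_option autoImplicit false

namespace Pool.Agent.V11306.F45

open Finset Polynomial Matrix

open Pool.Agent.Helper184

open Pool.Agent.Helper184.Chapman (chi chi_apply T chi_quad)

open Pool.Agent.V11306.Toep

variable {p : ℕ} [Fact p.Prime]

lemma entry (n : ℕ) (i j : Fin n) :
    T p ℤ n i j = legendreSym p (((i : ℕ) : ℤ) - ((j : ℕ) : ℤ)) := by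
  simp [T, legendreSym]

/-- the splitting of the indices -/
def idx (r : ℕ) : Fin r ⊕ Fin 3 → Fin (r + 2 + 1) :=
  Sum.elim (fun j => ⟨(j : ℕ) + 1, by omega⟩)
    (fun k => if k = 0 then ⟨0, by omega⟩ else if k = 1 then ⟨r + 1, by omega⟩ else
      ⟨r + 2, by omega⟩)

lemma idx_inj (r : ℕ) : Function.Injective (idx r) := by
  rintro (a | a) (b | b) h
  · have h1 := congrArg Fin.val h
    simp only [idx, Sum.elim_inl] at h1
    rw [Sum.inl.injEq]
    exact Fin.ext (by omega)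
  · exfalso
    have h1 := congrArg Fin.val h
    have := a.2
    fin_cases b <;> simp [idx] at h1 <;> omega
  · exfalso
    have h1 := congrArg Fin.val h
    have := b.2
    fin_cases a <;> simp [idx] at h1 <;> omega
  · have h1 := congrArg Fin.val h
    fin_cases a <;> fin_cases b <;> simp [idx] at h1 ⊢

/-- the splitting of the indices, as an equivalence -/
noncomputable def idxE (r : ℕ) : Fin r ⊕ Fin 3 ≃ Fin (r + 2 + 1) :=
  Equiv.ofBijective (idx r) ((Fintype.bijective_iff_injective_and_card _).mpr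
    ⟨idx_inj r, by simp⟩)

/-- `N` is persymmetric -/
lemma N_per (h3 : p % 4 = 3) (m : ℕ) (hm : p = 2 * m + 1) (i : Fin (m + 1)) :
    N p m i (Fin.last m) = - N p m (Fin.rev i) 0 := by
  have hT : ∀ i j : Fin (m + 1), T p ℤ (m + 1) (Fin.rev i) (Fin.rev j) = T p ℤ (m + 1) j i := by
    intro i j
    simp only [T, Matrix.of_apply, Int.cast_id]
    congr 1
    have hi := i.2
    have hj := j.2
    rw [Fin.val_rev, Fin.val_rev, Nat.cast_sub (by omega), Nat.cast_sub (by omega)]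
    push_cast
    ring
  have h1 : (N p m).mulVec ((T p ℤ (m + 1)).mulVec (fun j => - N p m (Fin.rev j) 0)) =
      fun j => - N p m (Fin.rev j) 0 := by
    rw [Matrix.mulVec_mulVec, N_mul_T h3 m hm, Matrix.one_mulVec]
  have h2 : (T p ℤ (m + 1)).mulVec (fun j => - N p m (Fin.rev j) 0) =
      Pi.single (Fin.last m) 1 := by
    funext i
    simp only [Matrix.mulVec, dotProduct]
    have e1 : ∀ j, T p ℤ (m + 1) i j * (- N p m (Fin.rev j) 0) =
        T p ℤ (m + 1) (Fin.rev i) (Fin.rev j) * N p m (Fin.rev j) 0 := by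
      intro j
      rw [hT, T_skew h3 _ i j]
      ring
    have e2 : ∑ j, T p ℤ (m + 1) i j * (- N p m (Fin.rev j) 0) =
        ∑ j, T p ℤ (m + 1) (Fin.rev i) j * N p m j 0 := by
      rw [Finset.sum_congr rfl (fun j _ => e1 j)]
      exact Fintype.sum_bijective Fin.rev Fin.rev_bijective _ _ (fun _ => rfl)
    rw [e2]
    have h4 := congrFun (congrFun (T_mul_N h3 m hm) (Fin.rev i)) 0
    rw [Matrix.mul_apply, Matrix.one_apply] at h4
    rw [h4, Pi.single_apply]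
    congr 1
    rw [eq_iff_iff]
    constructor
    · intro h
      have := congrArg Fin.rev h
      rwa [Fin.rev_rev, Fin.rev_zero] at this
    · intro h
      rw [h, Fin.rev_last]
  rw [h2] at h1
  have h5 := congrFun h1 i
  rw [Matrix.mulVec_single_one] at h5
  exact h5

lemma ext_val' {n : ℕ} (w : Fin n → ℤ) (j : ℕ) (hj : j < n) : Chapman.ext w j = w ⟨j, hj⟩ := by
  simp [Chapman.ext, hj]

lemma leg_three (h3 : p % 4 = 3) (h7 : 7 ≤ p) :
    (((p - 2) / 3 : ℕ) : ℤ) * 3 = p - 3 + quadraticChar (ZMod p) 3 := by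
  have hf3 : Fact (Nat.Prime 3) := ⟨Nat.prime_three⟩
  have hp2 : p ≠ 2 := by omega
  have h := legendreSym.quadratic_reciprocity_three_mod_four (p := p) (q := 3) h3 (by norm_num)
  have e1 : legendreSym p (3 : ℕ) = quadraticChar (ZMod p) 3 := by
    simp [legendreSym]
  have h4 : legendreSym 3 p = legendreSym 3 ((p % 3 : ℕ) : ℤ) := by
    rw [legendreSym.mod 3 (p : ℤ)]
    norm_cast
  have hp3 : p % 3 ≠ 0 := by
    intro h0
    have h1 : 3 ∣ p := Nat.dvd_of_mod_eq_zero h0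
    have := (Nat.prime_dvd_prime_iff_eq Nat.prime_three (Fact.out : p.Prime)).mp h1
    omega
  have hcase : p % 3 = 1 ∨ p % 3 = 2 := by omega
  have h5 : legendreSym p ((3 : ℕ) : ℤ) = - legendreSym 3 (p : ℤ) := by
    rw [h]; ring
  rcases hcase with hc | hc
  · have h6 : legendreSym 3 (p : ℤ) = 1 := by
      rw [h4, hc]
      have : @legendreSym 3 ⟨Nat.prime_three⟩ 1 = 1 := by decide +kernel
      exact_mod_cast this
    rw [← e1, h5, h6]
    omega
  · have h6 : legendreSym 3 (p : ℤ) = -1 := by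
      rw [h4, hc]
      have : @legendreSym 3 ⟨Nat.prime_three⟩ 2 = -1 := by decide +kernel
      exact_mod_cast this
    rw [← e1, h5, h6]
    omega

lemma det_int (h3 : p % 4 = 3) (r : ℕ) (hm : p = 2 * (r + 2) + 1) (h7 : 7 ≤ p) (x : ℤ) :
    (Matrix.of fun j k : Fin r => x + legendreSym p (((j : ℕ) : ℤ) - ((k : ℕ) : ℤ))).det =
      (((p - 2) / 3 : ℕ) : ℤ) ^ 2 * x := by
  have hJ := jacobi _ _ (AB h3 (r + 2) hm x) (idxE r)
  rw [A_det h3 (r + 2) hm, one_mul] at hJ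
  have e1 : (Matrix.of fun j k : Fin r => x + legendreSym p (((j : ℕ) : ℤ) - ((k : ℕ) : ℤ))) =
      (Matrix.of fun i j : Fin (r + 2 + 1) => T p ℤ (r + 2 + 1) i j + x).submatrix
        (fun i => idxE r (Sum.inl i)) (fun i => idxE r (Sum.inl i)) := by
    ext j k
    rw [Matrix.submatrix_apply, Matrix.of_apply, Matrix.of_apply, entry, add_comm]
    congr 2
    show ((j : ℕ) : ℤ) - ((k : ℕ) : ℤ) = ((((j : ℕ) + 1 : ℕ)) : ℤ) - ((((k : ℕ) + 1 : ℕ)) : ℤ)
    push_cast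
    ring
  rw [e1, hJ, Matrix.det_fin_three]
  simp only [Matrix.submatrix_apply, Matrix.of_apply]
  have i0 : idxE r (Sum.inr 0) = 0 := rfl
  have i1 : idxE r (Sum.inr 1) = ⟨r + 1, by omega⟩ := rfl
  have i2 : idxE r (Sum.inr 2) = Fin.last (r + 2) := rfl
  rw [i0, i1, i2]
  set q1 : Fin (r + 2 + 1) := ⟨r + 1, by omega⟩ with hq1
  set qm : Fin (r + 2 + 1) := Fin.last (r + 2) with hqm
  set M := N p (r + 2) with hM
  set u := uu p (r + 2) with hu
  obtain ⟨β, hβ, v0, vm, vm1, n1, nm, nm1⟩ := values h3 (r + 2) hm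
  have hd : ∀ i, M i i = 0 := by
    intro i
    have := N_skew h3 (r + 2) hm i i
    rw [← hM] at this
    omega
  have s1 : M 0 q1 = - M q1 0 := N_skew h3 (r + 2) hm 0 q1
  have s2 : M 0 qm = - M qm 0 := N_skew h3 (r + 2) hm 0 qm
  have s3 : M q1 qm = - M ⟨1, by omega⟩ 0 := by
    have h := N_per h3 (r + 2) hm q1
    rw [← hM, ← hqm] at h
    rw [h]
    congr 2
    apply Fin.ext
    rw [Fin.val_rev]
    simp only [hq1]
    omega
  have s4 : M qm q1 = - M q1 qm := N_skew h3 (r + 2) hm qm q1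
  rw [hd, hd, hd, s1, s2, s4, s3]
  rw [ext_val' _ _ (by omega)] at n1 nm vm
  have vm1' := vm1 (by omega)
  have nm1' := nm1 (by omega)
  rw [ext_val' _ _ (by omega)] at vm1' nm1'
  have hc2 : chi p ℂ 2 * chi p ℂ 2 = 1 := Chapman.chi_sq (two_ne (by omega))
  have a0 : ((u 0 : ℤ) : ℂ) = -β := v0
  have a1 : ((u q1 : ℤ) : ℂ) * 2 = β * (1 - p) := vm1'
  have am : ((u qm : ℤ) : ℂ) = β := vm
  have b1 : ((M ⟨1, by omega⟩ 0 : ℤ) : ℂ) = chi p ℂ 2 := n1
  have bm : ((M qm 0 : ℤ) : ℂ) = chi p ℂ 2 := nm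
  have bq : ((M q1 0 : ℤ) : ℂ) * 6 = chi p ℂ 2 * (3 - p + 2 * chi p ℂ 3) := nm1'
  have h9 := leg_three h3 h7
  obtain ⟨F, hF⟩ : ∃ F : ℤ, F = (((p - 2) / 3 : ℕ) : ℤ) := ⟨_, rfl⟩
  rw [← hF] at h9 ⊢
  have h9' : (F : ℂ) * 3 = p - 3 + chi p ℂ 3 := by
    rw [chi_apply]
    exact_mod_cast h9
  have key : ∀ A B C' u0 u1 um : ℤ,
      (0 + x * (u0 * u0)) * (0 + x * (u1 * u1)) * (0 + x * (um * um)) -
        (0 + x * (u0 * u0)) * (-C' + x * (u1 * um)) * (- -C' + x * (um * u1)) -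
        (-A + x * (u0 * u1)) * (A + x * (u1 * u0)) * (0 + x * (um * um)) +
        (-A + x * (u0 * u1)) * (-C' + x * (u1 * um)) * (B + x * (um * u0)) +
        (-B + x * (u0 * um)) * (A + x * (u1 * u0)) * (- -C' + x * (um * u1)) -
        (-B + x * (u0 * um)) * (0 + x * (u1 * u1)) * (B + x * (um * u0)) =
      x * (C' * u0 - B * u1 + A * um) ^ 2 := by
    intro A B C' u0 u1 um
    ring
  rw [key]
  have hfin : ((M ⟨1, by omega⟩ 0 * u 0 - M qm 0 * u q1 + M q1 0 * u qm : ℤ) : ℂ) =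
      β * chi p ℂ 2 * (F : ℂ) := by
    push_cast
    rw [a0, am, b1, bm]
    have e6 : (6 : ℂ) ≠ 0 := by norm_num
    apply mul_left_cancel₀ e6
    linear_combination (-3 * chi p ℂ 2) * a1 + β * bq - (2 * β * chi p ℂ 2) * h9'
  have hfin2 : ((M ⟨1, by omega⟩ 0 * u 0 - M qm 0 * u q1 + M q1 0 * u qm) ^ 2 : ℤ) = F ^ 2 := by
    have : (((M ⟨1, by omega⟩ 0 * u 0 - M qm 0 * u q1 + M q1 0 * u qm) ^ 2 : ℤ) : ℂ) =
        ((F ^ 2 : ℤ) : ℂ) := by
      rw [Int.cast_pow, hfin, Int.cast_pow]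
      linear_combination (chi p ℂ 2 ^ 2 * (F : ℂ) ^ 2) * hβ + (F : ℂ) ^ 2 * hc2
    exact_mod_cast this
  rw [hfin2]
  ring

end Pool.Agent.V11306.F45

open Polynomial in
/-- `MP_f45d88_nt`, Q1: for every prime `p ≡ 3 (mod 4)`, `p ≥ 7`, the determinant of
`[x + (j-k/p)]`, `0 ≤ j, k ≤ (p-7)/2`, is `⌊(p-2)/3⌋² x`. -/
theorem Pool.Agent.Results.MP_f45d88_nt.EveryPrime.result (p : ℕ) [Fact p.Prime]
    (h7 : 7 ≤ p) (h3 : p % 4 = 3) :
    (Matrix.of fun j k : Fin ((p - 5) / 2) =>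
      (X : ℤ[X]) + C (legendreSym p (((j : ℕ) : ℤ) - ((k : ℕ) : ℤ)))).det =
      C ((((p - 2) / 3 : ℕ) : ℤ) ^ 2) * X := by
  apply Polynomial.funext
  intro x
  have h1 : eval x (Matrix.of fun j k : Fin ((p - 5) / 2) =>
      (X : ℤ[X]) + C (legendreSym p (((j : ℕ) : ℤ) - ((k : ℕ) : ℤ)))).det =
      (Matrix.of fun j k : Fin ((p - 5) / 2) =>
        x + legendreSym p (((j : ℕ) : ℤ) - ((k : ℕ) : ℤ))).det := by
    rw [← coe_evalRingHom, RingHom.map_det]
    congr 1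
    ext j k
    rw [RingHom.mapMatrix_apply, Matrix.map_apply, Matrix.of_apply, Matrix.of_apply,
      coe_evalRingHom, eval_add, eval_X, eval_C]
  rw [h1, Pool.Agent.V11306.F45.det_int h3 ((p - 5) / 2) (by omega) h7, eval_mul, eval_C, eval_X]
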